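import Pool.Agent.Helper5.SX.St

set_option autoImplicit false

namespace Pool.Agent.Helper40.SX

open _root_.SX
open Finset
open scoped Classical

theorem hUNF : StBFA → StBFB → StCZ → StUNF := by
  intro hA hB hZ V _ A c y l hM m hm
  have hst := hM.st
  obtain ⟨a1, a2, a3, a4, a5, a6, a7⟩ := hA V A c y l hst
  obtain ⟨z0, z1⟩ := hZ V A c y l hM
  obtain ⟨b1, b2, b3, b4, b5, b6, b7, b8, b9, b10⟩ := hB V A c y l hst z0
  have hmK : m ∈ Kset A c y l := (mem_filter.1 hm).1
  have hmM : m ∈ Mk A c := (mem_filter.1 hm).2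
  have key : ∀ v ∈ Und A c y l (A.b m), v ∉ Mk A c ∧ v ∉ Cen y l ∧ c v < A.k ∧ c v ≠ A.al ∧
      ∃ z ∈ A.N m, c z = c v := by
    intro v hv
    have hvb : A.b v = A.b m := (mem_filter.1 hv).2.1
    have hvn : ∀ z ∈ A.N v, z ∉ Kset A c y l := (mem_filter.1 hv).2.2
    have hvK : v ∉ Kset A c y l := by
      intro h
      obtain ⟨w, hw1, hw2⟩ := b10 v h
      exact hvn w hw1 hw2
    have hvM : v ∉ Mk A c := by
      intro h
      have := a1 v h m hmM hvb
      exact hvK (this ▸ hmK)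
    have hvC : v ∉ Cen y l := fun h => hvK (b6 v h).1
    have hvu : v ≠ A.u := by
      intro h
      exact hvM (mem_filter.2 ⟨mem_univ _, Or.inl h⟩)
    have hval : c v ≠ A.al := by
      intro h
      exact hvM (mem_filter.2 ⟨mem_univ _, Or.inr h⟩)
    have hnav : ¬ Av A c v := by
      intro h
      obtain ⟨z, hz1, hz2⟩ := z1 v (by rw [hvb]; exact b2 m hmK) h
      exact hvn z hz1 hz2
    have : ∃ m' ∈ Mk A c, A.b m' = A.b v ∧ ∃ z ∈ A.N m', c z = c v ∧ ¬ (A.k ≤ c v) := by
      by_contra hcon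
      apply hnav
      refine Or.inr ⟨hval, ?_⟩
      intro m' hm' hb z hz hcz
      by_contra hk
      exact hcon ⟨m', hm', hb, z, hz, hcz, hk⟩
    obtain ⟨m', hm', hb, z, hz, hcz, hk⟩ := this
    have hmm : m' = m := a1 m' hm' m hmM (hb.trans hvb)
    subst hmm
    exact ⟨hvM, hvC, not_le.1 hk, hval, z, hz, hcz⟩
  refine ⟨key, ?_, ?_⟩
  · have hch : ∀ v ∈ Und A c y l (A.b m), ∃ z ∈ A.N m, c z = c v := fun v hv => (key v hv).2.2.2.2
    choose! f hf1 hf2 using hch
    apply card_le_card_of_injOn f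
    · intro v hv
      have hv' : v ∈ Und A c y l (A.b m) := by simpa using hv
      simp only [Us, coe_filter, Set.mem_setOf_eq]
      exact ⟨hf1 v hv', v, hv', (hf2 v hv').symm⟩
    · intro v hv w hw hvw
      have hv' : v ∈ Und A c y l (A.b m) := by simpa using hv
      have hw' : w ∈ Und A c y l (A.b m) := by simpa using hw
      have hb1 : A.b v = A.b m := (mem_filter.1 hv').2.1
      have hb2 : A.b w = A.b m := (mem_filter.1 hw').2.1
      apply hst.base.lab.inj v w (hb1.trans hb2.symm)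
      rw [← hf2 v hv', ← hf2 w hw', hvw]
  · exact (card_le_card (filter_subset _ _)).trans (A.deg m)

end Pool.Agent.Helper40.SX
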